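import Pool.Agent.Helper155.NME.Final

set_option autoImplicit false

open Filter Topology Set Metric

universe u v

namespace Pool.Agent.Results.MP_760d08_an.MeanErgodic

/-- **Nonlinear mean ergodic theorem in every uniformly convex Banach space.** Let `X` be a real or
complex Banach space which is uniformly convex, `U` a nonexpansive self-map of its closed unit
ball. Then for every `x` in the ball the Cesàro means `S_n(x)` converge weakly to a fixed point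
of `U`. -/
theorem result (𝕜 : Type u) [RCLike 𝕜] (X : Type v) [NormedAddCommGroup X] [NormedSpace 𝕜 X]
    [CompleteSpace X]
    (huc : ∀ ε : ℝ, 0 < ε → ε ≤ 2 → ∃ δ : ℝ, 0 < δ ∧ ∀ x y : X, ‖x‖ ≤ 1 → ‖y‖ ≤ 1 →
      ε ≤ ‖x - y‖ → ‖(2 : 𝕜)⁻¹ • (x + y)‖ ≤ 1 - δ)
    (U : X → X) (hU : MapsTo U (closedBall (0 : X) 1) (closedBall (0 : X) 1))
    (hne : ∀ x ∈ closedBall (0 : X) 1, ∀ y ∈ closedBall (0 : X) 1, ‖U x - U y‖ ≤ ‖x - y‖)
    (x : X) (hx : x ∈ closedBall (0 : X) 1) :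
    ∃ p ∈ closedBall (0 : X) 1, U p = p ∧ ∀ φ : X →L[𝕜] 𝕜,
      Tendsto (fun n : ℕ => φ (((n : 𝕜) + 1)⁻¹ • ∑ j ∈ Finset.range (n + 1), U^[j] x))
        atTop (𝓝 (φ p)) := by
  letI : NormedSpace ℝ X := NormedSpace.restrictScalars ℝ 𝕜 X
  haveI hUC : UniformConvexSpace X := by
    refine ⟨fun ε hε => ?_⟩
    by_cases h2 : ε ≤ 2
    · obtain ⟨δ, hδ, H⟩ := huc ε hε h2
      refine ⟨2 * δ, by linarith, fun a ha b hb hab => ?_⟩
      have h1 := H a b ha.le hb.le hab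
      rw [norm_smul, norm_inv, RCLike.norm_ofNat] at h1
      linarith
    · refine ⟨1, one_pos, fun a ha b hb hab => ?_⟩
      exfalso
      have := norm_sub_le a b
      linarith [not_le.1 h2]
  have hconv : Convex ℝ (closedBall (0 : X) 1) := convex_closedBall 0 1
  have hR : ∀ a ∈ closedBall (0 : X) 1, ∀ b ∈ closedBall (0 : X) 1, ‖a - b‖ ≤ 2 := by
    intro a ha b hb
    rw [mem_closedBall_zero_iff] at ha hb
    have := norm_sub_le a b
    linarith
  obtain ⟨p, hp, hUp, hlim⟩ := Pool.Agent.Helper155.NME.nonlinear_mean_ergodic hconv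
    isClosed_closedBall hR (U := U) ⟨fun a ha => hU ha, hne⟩ hx
  refine ⟨p, hp, hUp, fun φ => ?_⟩
  have hsm : ∀ (n : ℕ) (w : X), ((n : 𝕜) + 1)⁻¹ • w = ((n : ℝ) + 1)⁻¹ • w := by
    intro n w
    have e : ((n : ℝ) + 1)⁻¹ • w = (((((n : ℝ) + 1)⁻¹ : ℝ)) : 𝕜) • w := rfl
    rw [e]
    congr 1
    push_cast
    rfl
  simp only [hsm]
  have hre := hlim (RCLike.reCLM.comp (φ.restrictScalars ℝ))
  have him := hlim (RCLike.imCLM.comp (φ.restrictScalars ℝ))
  have hcomb : ∀ w : X, φ w = ((((RCLike.reCLM : 𝕜 →L[ℝ] ℝ).comp (φ.restrictScalars ℝ)) w : ℝ) : 𝕜)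
      + ((((RCLike.imCLM : 𝕜 →L[ℝ] ℝ).comp (φ.restrictScalars ℝ)) w : ℝ) : 𝕜) * RCLike.I := by
    intro w
    exact (RCLike.re_add_im (φ w)).symm
  simp only [hcomb]
  exact ((RCLike.continuous_ofReal.tendsto _).comp hre).add
    (((RCLike.continuous_ofReal.tendsto _).comp him).mul_const _)

end Pool.Agent.Results.MP_760d08_an.MeanErgodic
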